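import Pool.Agent.LP86.Mem

/-!
Deciding whether a graph is `k`-locally planar is NP-complete, for every fixed `k ≥ 3`.
-/

/-- For every `k ≥ 3`, the recognition problem for `k`-locally planar graphs is NP-complete. -/
theorem Pool.Agent.Results.MP_32ee78_lc.LocPlanarNPC.result (k : ℕ) (hk : 3 ≤ k) :
    Pool.Agent.Cx.NPComplete (Pool.Agent.LP86.Recognition k) :=
  Pool.Agent.LP86.npComplete_recognition hk
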